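import Pool.Agent.Lib_MP_884f32_an.Main2

open Filter Metric Set Topology
open scoped Manifold ContDiff

namespace Pool.Agent.Results.MP_884f32_an.CompactHulls

/-- An exhaustion function on `X`: continuous, nonnegative, with compact sublevel sets. -/
def IsExhaustion {X : Type*} [TopologicalSpace X] (ρ : X → ℝ) : Prop :=
  Continuous ρ ∧ (∀ x, 0 ≤ ρ x) ∧ ∀ r, IsCompact {x | ρ x ≤ r}

/-- Tameness of a subset `D` of the complex manifold `X`: for every exhaustion function `ρ` and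
every nonnegative function `ζ` on `D` there is an automorphism `φ` (a biholomorphic self map,
that is, a diffeomorphism of class `C^ω` over `ℂ`) with `ρ (φ x) ≥ ζ x` for all `x ∈ D`. -/
def Tame (E : Type*) [NormedAddCommGroup E] [NormedSpace ℂ E]
    {X : Type*} [TopologicalSpace X] [ChartedSpace E X] (D : Set X) : Prop :=
  ∀ ρ : X → ℝ, IsExhaustion ρ → ∀ ζ : D → ℝ, (∀ x, 0 ≤ ζ x) →
    ∃ φ : X ≃ₘ^ω⟮𝓘(ℂ, E), 𝓘(ℂ, E)⟯ X, ∀ x : D, ζ x ≤ ρ (φ x)

/-- Every holomorphic map `ℂ → Y` with relatively compact image is constant. -/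
def NoBoundedEntireCurve (E' : Type*) [NormedAddCommGroup E'] [NormedSpace ℂ E']
    (Y : Type*) [TopologicalSpace Y] [ChartedSpace E' Y] : Prop :=
  ∀ f : ℂ → Y, MDifferentiable 𝓘(ℂ, ℂ) 𝓘(ℂ, E') f →
    (∃ K : Set Y, IsCompact K ∧ ∀ t, f t ∈ K) → ∀ s t, f s = f t

/-- The hull of `K ⊆ X` with respect to all holomorphic maps `X → Y`: the set of all points `x`
with `f x ∈ f(K)` for every holomorphic `f : X → Y`. -/
def Hull (E : Type*) [NormedAddCommGroup E] [NormedSpace ℂ E]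
    (E' : Type*) [NormedAddCommGroup E'] [NormedSpace ℂ E']
    {X : Type*} [TopologicalSpace X] [ChartedSpace E X]
    (Y : Type*) [TopologicalSpace Y] [ChartedSpace E' Y] (K : Set X) : Set X :=
  {x | ∀ f : X → Y, ContMDiff 𝓘(ℂ, E) 𝓘(ℂ, E') ω f → f x ∈ f '' K}

/-- Let `X` be a non-compact complex manifold and let `Y` be a complex manifold in which all
entire curves with relatively compact image are constant (for instance `Y = ℂ`). If the hull
of every compact subset of `X` with respect to the holomorphic maps `X → Y` is compact, then `X`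
contains an infinite closed discrete subset which is not tame. -/
theorem result {E : Type*} [NormedAddCommGroup E] [NormedSpace ℂ E] [FiniteDimensional ℂ E]
    {X : Type*} [TopologicalSpace X] [T2Space X] [SecondCountableTopology X]
    [ChartedSpace E X] [IsManifold 𝓘(ℂ, E) ω X] [NoncompactSpace X]
    {E' : Type*} [NormedAddCommGroup E'] [NormedSpace ℂ E'] [FiniteDimensional ℂ E']
    {Y : Type*} [TopologicalSpace Y] [T2Space Y] [SecondCountableTopology Y]
    [ChartedSpace E' Y] [IsManifold 𝓘(ℂ, E') ω Y]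
    (hY : NoBoundedEntireCurve E' Y)
    (hXY : ∀ K : Set X, IsCompact K → IsCompact (Hull E E' Y K)) :
    ∃ D : Set X, D.Infinite ∧ IsClosed D ∧ DiscreteTopology D ∧ ¬ Tame E D := by
  have hlcp : LocallyCompactSpace X := by
    have : ProperSpace E := FiniteDimensional.proper ℂ E
    exact ChartedSpace.locallyCompactSpace E X
  have hlcpY : LocallyCompactSpace Y := by
    have : ProperSpace E' := FiniteDimensional.proper ℂ E'
    exact ChartedSpace.locallyCompactSpace E' Y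
  let : MetricSpace Y := TopologicalSpace.metrizableSpaceMetric Y
  have hH : ∀ L : Set Y, IsCompact L → NonTame.HDisc E' L := fun L hL =>
    NonTame.hdisc_of_noBounded hY hL
  have hHull : ∀ K : Set X, IsCompact K →
      IsCompact (NonTame.FHull (NonTame.HolF E E' X Y) K) := hXY
  have hmain : ∃ u : X → ℝ, (Continuous u ∧ (∀ x, 0 ≤ u x) ∧ ∀ r, IsCompact {x | u x ≤ r}) ∧
      ∃ D : Set X, D.Infinite ∧ (∀ x, ∃ V ∈ 𝓝 x, (D ∩ V).Finite) ∧
      ∃ ζ : X → ℝ, (∀ x, 0 ≤ ζ x) ∧
        ∀ φ : X ≃ₘ^ω⟮𝓘(ℂ, E), 𝓘(ℂ, E)⟯ X, ∃ x ∈ D, u (φ x) < ζ x := by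
    by_cases hc : ∀ x : X, IsCompact (connectedComponent x)
    · obtain ⟨u, hu, hu0, huc⟩ := NonTame.exists_exhaustion X
      exact ⟨u, ⟨hu, hu0, huc⟩, NonTame.main_compact2 hu hu0 hc⟩
    · push Not at hc
      obtain ⟨x₀, hx₀⟩ := hc
      have hcont : ∀ f ∈ NonTame.HolF E E' X Y, Continuous f := by
        intro f hf
        have hfm : ContMDiff 𝓘(ℂ, E) 𝓘(ℂ, E') ω f := hf
        exact hfm.continuous
      obtain ⟨u, hu, hu0, huc, hus⟩ := NonTame.exists_sat_exhaustion hcont hHull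
      exact ⟨u, ⟨hu, hu0, huc⟩, NonTame.main_noncompact2 hH hHull hu hu0 huc hus hx₀⟩
  obtain ⟨u, hu, D, hDi, hDf, ζ, hζ, hφ⟩ := hmain
  obtain ⟨h1, h2⟩ := isClosed_and_discrete_iff.2 (NonTame.closed_discrete hDf)
  refine ⟨D, hDi, h1, h2.to_subtype, ?_⟩
  intro ht
  obtain ⟨φ, hφ2⟩ := ht u hu (fun x => ζ x) (fun x => hζ x)
  obtain ⟨x, hxD, hx⟩ := hφ φ
  exact absurd hx (not_lt.2 (hφ2 ⟨x, hxD⟩))

end Pool.Agent.Results.MP_884f32_an.CompactHulls
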